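import Pool.Agent.helper93.TV.Spec3

namespace Pool.Agent.helper93.TV

open BigOperators Finset

section KD

variable {I V : Type} [Fintype I] [DecidableEq I] [Fintype V] [DecidableEq V]

theorem KD_dim (D : FD I V) (d : I → ℝ) (hd : D.IsDim d) (a b : I) :
    ∑ c, (D.mlt a b c : ℝ) * d c = d a * d b := by
  rw [← hd.2 a b, ← Finset.sum_fiberwise_of_maps_to
    (s := univ.filter fun v => D.s1 v = a ∧ D.s2 v = b) (t := univ) (g := D.t)
    (fun _ _ => Finset.mem_univ _)]
  apply Finset.sum_congr rfl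
  intro c _
  have h1 : ∑ v ∈ (univ.filter fun v => D.s1 v = a ∧ D.s2 v = b).filter (fun v => D.t v = c),
      d (D.t v) = ∑ v ∈ (univ.filter fun v => D.s1 v = a ∧ D.s2 v = b).filter (fun v => D.t v = c),
      d c := by
    apply Finset.sum_congr rfl
    intro v hv
    rw [(Finset.mem_filter.1 hv).2]
  rw [h1, Finset.sum_const, nsmul_eq_mul, Finset.filter_filter]
  congr 2
  unfold FD.mlt
  congr 1
  ext v
  simp only [Finset.mem_filter, Finset.mem_univ, true_and, and_assoc]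

theorem KD_du (D : FD I V) (d : I → ℝ) (hR : D.Rg) (hd : D.IsDim d) (x : I) :
    d (D.du x) = d x := by
  have h1 : ∑ b, ∑ c, d b * (D.mlt x b c : ℝ) * d c = d x * ∑ b, d b * d b := by
    rw [Finset.mul_sum]
    apply Finset.sum_congr rfl
    intro b _
    have := KD_dim D d hd x b
    calc ∑ c, d b * (D.mlt x b c : ℝ) * d c = d b * ∑ c, (D.mlt x b c : ℝ) * d c := by
          rw [Finset.mul_sum]
          apply Finset.sum_congr rfl
          intro c _; ring
      _ = d x * (d b * d b) := by rw [this]; ring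
  have h2 : ∑ b, ∑ c, d b * (D.mlt x b c : ℝ) * d c = d (D.du x) * ∑ b, d b * d b := by
    rw [Finset.sum_comm, Finset.mul_sum]
    apply Finset.sum_congr rfl
    intro c _
    have := KD_dim D d hd (D.du x) c
    calc ∑ b, d b * (D.mlt x b c : ℝ) * d c = d c * ∑ b, (D.mlt (D.du x) c b : ℝ) * d b := by
          rw [Finset.mul_sum]
          apply Finset.sum_congr rfl
          intro b _
          rw [hR.frl x b c]; ring
      _ = d (D.du x) * (d c * d c) := by rw [this]; ring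
  have h3 : 0 < ∑ b, d b * d b :=
    Finset.sum_pos (fun b _ => mul_pos (hd.1 b) (hd.1 b)) ⟨x, Finset.mem_univ _⟩
  have h4 : d (D.du x) * ∑ b, d b * d b = d x * ∑ b, d b * d b := by rw [← h1, ← h2]
  exact mul_right_cancel₀ h3.ne' h4

theorem KD_sumE (D : FD I V) (d : I → ℝ) (hd : D.IsDim d) (x a y : I) :
    ∑ e, ((∑ b, D.mlt x a b * D.mlt b y e : ℕ) : ℝ) * d e = d x * d a * d y := by
  calc ∑ e, ((∑ b, D.mlt x a b * D.mlt b y e : ℕ) : ℝ) * d e
      = ∑ e, ∑ b, (D.mlt x a b : ℝ) * ((D.mlt b y e : ℝ) * d e) := by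
        apply Finset.sum_congr rfl
        intro e _
        push_cast
        rw [Finset.sum_mul]
        apply Finset.sum_congr rfl
        intro b _; ring
    _ = ∑ b, (D.mlt x a b : ℝ) * ∑ e, (D.mlt b y e : ℝ) * d e := by
        rw [Finset.sum_comm]
        apply Finset.sum_congr rfl
        intro b _
        rw [Finset.mul_sum]
    _ = ∑ b, ((D.mlt x a b : ℝ) * d b) * d y := by
        apply Finset.sum_congr rfl
        intro b _
        rw [KD_dim D d hd b y]; ring
    _ = d x * d a * d y := by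
        rw [← Finset.sum_mul, KD_dim D d hd x a]

theorem KD_sumA (D : FD I V) (d : I → ℝ) (hR : D.Rg) (hd : D.IsDim d) (x y e : I) :
    ∑ a, ((∑ b, D.mlt x a b * D.mlt b y e : ℕ) : ℝ) * d a = d x * d y * d e := by
  calc ∑ a, ((∑ b, D.mlt x a b * D.mlt b y e : ℕ) : ℝ) * d a
      = ∑ a, ∑ b, (D.mlt e (D.du y) b : ℝ) * ((D.mlt (D.du x) b a : ℝ) * d a) := by
        apply Finset.sum_congr rfl
        intro a _
        push_cast
        rw [Finset.sum_mul]
        apply Finset.sum_congr rfl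
        intro b _
        rw [hR.frl x a b, hR.frr b y e]; ring
    _ = ∑ b, (D.mlt e (D.du y) b : ℝ) * ∑ a, (D.mlt (D.du x) b a : ℝ) * d a := by
        rw [Finset.sum_comm]
        apply Finset.sum_congr rfl
        intro b _
        rw [Finset.mul_sum]
    _ = ∑ b, ((D.mlt e (D.du y) b : ℝ) * d b) * d (D.du x) := by
        apply Finset.sum_congr rfl
        intro b _
        rw [KD_dim D d hd (D.du x) b]; ring
    _ = d x * d y * d e := by
        rw [← Finset.sum_mul, KD_dim D d hd e (D.du y), KD_du D d hR hd x, KD_du D d hR hd y]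
        ring

theorem KD_row (D : FD I V) (d : I → ℝ) (hR : D.Rg) (hd : D.IsDim d) (x a y : I) :
    ∑ e, ((∑ b, D.mlt x a b * D.mlt b y e : ℕ) : ℝ) ^ 2 ≤ (d x * d y) ^ 2 := by
  have hda := hd.1 a
  have h1 : ∀ e, ((∑ b, D.mlt x a b * D.mlt b y e : ℕ) : ℝ) * d a ≤ d x * d y * d e := by
    intro e
    rw [← KD_sumA D d hR hd x y e]
    exact Finset.single_le_sum
      (f := fun a => ((∑ b, D.mlt x a b * D.mlt b y e : ℕ) : ℝ) * d a)
      (fun a _ => mul_nonneg (Nat.cast_nonneg _) (hd.1 a).le) (Finset.mem_univ a)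
  have h2 : (∑ e, ((∑ b, D.mlt x a b * D.mlt b y e : ℕ) : ℝ) ^ 2) * d a ≤
      (d x * d y) ^ 2 * d a := by
    calc (∑ e, ((∑ b, D.mlt x a b * D.mlt b y e : ℕ) : ℝ) ^ 2) * d a
        = ∑ e, ((∑ b, D.mlt x a b * D.mlt b y e : ℕ) : ℝ) *
            (((∑ b, D.mlt x a b * D.mlt b y e : ℕ) : ℝ) * d a) := by
          rw [Finset.sum_mul]
          apply Finset.sum_congr rfl
          intro e _; ring
      _ ≤ ∑ e, ((∑ b, D.mlt x a b * D.mlt b y e : ℕ) : ℝ) * (d x * d y * d e) := by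
          apply Finset.sum_le_sum
          intro e _
          exact mul_le_mul_of_nonneg_left (h1 e) (Nat.cast_nonneg _)
      _ = d x * d y * ∑ e, ((∑ b, D.mlt x a b * D.mlt b y e : ℕ) : ℝ) * d e := by
          rw [Finset.mul_sum]
          apply Finset.sum_congr rfl
          intro e _; ring
      _ = (d x * d y) ^ 2 * d a := by
          rw [KD_sumE D d hd x a y]; ring
  exact le_of_mul_le_mul_right h2 hda

theorem KD_xy (D : FD I V) (d : I → ℝ) (hR : D.Rg) (hd : D.IsDim d) (x y : I) :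
    ((∑ a, ∑ e, (∑ b, D.mlt x a b * D.mlt b y e) ^ 2 : ℕ) : ℝ) ≤
      Fintype.card I * (d x * d y) ^ 2 := by
  rw [Nat.cast_sum]
  have h1 : ∀ a ∈ (univ : Finset I), ((∑ e, (∑ b, D.mlt x a b * D.mlt b y e) ^ 2 : ℕ) : ℝ) ≤
      (d x * d y) ^ 2 := by
    intro a _
    rw [Nat.cast_sum]
    refine le_trans (le_of_eq ?_) (KD_row D d hR hd x a y)
    apply Finset.sum_congr rfl
    intro e _
    rw [Nat.cast_pow]
  refine le_trans (Finset.sum_le_card_nsmul _ _ _ h1) (le_of_eq ?_)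
  rw [nsmul_eq_mul, Finset.card_univ]

end KD

theorem KD : KD_stmt := by
  intro I V _ _ _ _ D d hR hd
  refine ⟨KD_du D d hR hd, KD_xy D d hR hd, ?_⟩
  intro X z hX
  unfold FD.kap
  rw [Nat.cast_sum]
  have h1 : ∀ x ∈ X, ((∑ y ∈ X, ∑ a, ∑ e, (∑ b, D.mlt x a b * D.mlt b y e) ^ 2 : ℕ) : ℝ) ≤
      (X.card : ℝ) * (Fintype.card I * z ^ 4) := by
    intro x hx
    rw [Nat.cast_sum]
    have h2 : ∀ y ∈ X, ((∑ a, ∑ e, (∑ b, D.mlt x a b * D.mlt b y e) ^ 2 : ℕ) : ℝ) ≤
        Fintype.card I * z ^ 4 := by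
      intro y hy
      refine le_trans (KD_xy D d hR hd x y) ?_
      apply mul_le_mul_of_nonneg_left _ (Nat.cast_nonneg _)
      have hx0 := hd.1 x
      have hy0 := hd.1 y
      have hxz := hX x hx
      have hyz := hX y hy
      have h3 : d x * d y ≤ z * z := mul_le_mul hxz hyz hy0.le (hx0.le.trans hxz)
      have h4 : 0 ≤ d x * d y := (mul_pos hx0 hy0).le
      calc (d x * d y) ^ 2 ≤ (z * z) ^ 2 := pow_le_pow_left₀ h4 h3 2
        _ = z ^ 4 := by ring
    refine le_trans (Finset.sum_le_card_nsmul _ _ _ h2) (le_of_eq ?_)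
    rw [nsmul_eq_mul]
  refine le_trans (Finset.sum_le_card_nsmul _ _ _ h1) (le_of_eq ?_)
  rw [nsmul_eq_mul]
  ring

end Pool.Agent.helper93.TV
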